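import Mathlib

set_option autoImplicit false

namespace Pool.Agent.Helper412SCD

open scoped Topology

/-- The sign attached to a direction. -/
def sg : Bool → ℝ := fun c => if c then 1 else -1

lemma sg_true : sg true = 1 := rfl
lemma sg_false : sg false = -1 := rfl

lemma abs_sg (c : Bool) : |sg c| = 1 := by cases c <;> simp [sg]

/-- variation of `μ` along the proper ancestors of a node -/
def V (μ : List Bool → ℝ) : List Bool → ℝ
  | [] => 0
  | _ :: t => V μ t + |μ t|

/-- signed sum of `μ` along the proper ancestors of a node -/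
def G (μ : List Bool → ℝ) : List Bool → ℝ
  | [] => 0
  | c :: t => G μ t + sg c * μ t

lemma V_nil (μ : List Bool → ℝ) : V μ [] = 0 := rfl
lemma V_cons (μ : List Bool → ℝ) (c : Bool) (t : List Bool) : V μ (c :: t) = V μ t + |μ t| := rfl
lemma G_nil (μ : List Bool → ℝ) : G μ [] = 0 := rfl
lemma G_cons (μ : List Bool → ℝ) (c : Bool) (t : List Bool) :
    G μ (c :: t) = G μ t + sg c * μ t := rfl

lemma VG_congr (μ ν : List Bool → ℝ) (t : List Bool)
    (h : ∀ r : List Bool, r.length < t.length → μ r = ν r) : V μ t = V ν t ∧ G μ t = G ν t := by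
  induction t with
  | nil => exact ⟨rfl, rfl⟩
  | cons c t ih =>
    have h1 := ih (fun r hr => h r (by simp only [List.length_cons]; omega))
    have h2 := h t (by simp)
    rw [V_cons, V_cons, G_cons, G_cons, h1.1, h1.2, h2]
    exact ⟨rfl, rfl⟩

lemma abs_G_le_V (μ : List Bool → ℝ) (t : List Bool) : |G μ t| ≤ V μ t := by
  induction t with
  | nil => simp [V_nil, G_nil]
  | cons c t ih =>
    rw [V_cons, G_cons]
    calc |G μ t + sg c * μ t| ≤ |G μ t| + |sg c * μ t| := abs_add_le _ _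
      _ = |G μ t| + |μ t| := by rw [abs_mul, abs_sg, one_mul]
      _ ≤ V μ t + |μ t| := by linarith

lemma V_nonneg (μ : List Bool → ℝ) (t : List Bool) : 0 ≤ V μ t :=
  le_trans (abs_nonneg _) (abs_G_le_V μ t)

lemma update_VG (μ : List Bool → ℝ) (s : List Bool) (a : ℝ)
    (hz : ∀ r : List Bool, s.length ≤ r.length → μ r = 0) (t : List Bool) :
    (V (Function.update μ s a) t = V μ t ∧ G (Function.update μ s a) t = G μ t) ∨
    (s.length < t.length ∧ ∃ c : Bool, V (Function.update μ s a) t = V μ s + |a| ∧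
      G (Function.update μ s a) t = G μ s + sg c * a) := by
  induction t with
  | nil => left; exact ⟨rfl, rfl⟩
  | cons d t ih =>
    by_cases hts : t = s
    · right
      subst hts
      have h1 := VG_congr (Function.update μ t a) μ t (fun r hr => by
        rw [Function.update_of_ne]
        rintro rfl
        exact lt_irrefl _ hr)
      refine ⟨by simp, d, ?_, ?_⟩
      · rw [V_cons, h1.1, Function.update_self]
      · rw [G_cons, h1.2, Function.update_self]
    · have hu : Function.update μ s a t = μ t := Function.update_of_ne hts _ _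
      rcases ih with h | ⟨hl, c, h1, h2⟩
      · left
        rw [V_cons, V_cons, G_cons, G_cons, h.1, h.2, hu]
        exact ⟨rfl, rfl⟩
      · right
        refine ⟨by simp only [List.length_cons]; omega, c, ?_, ?_⟩
        · rw [V_cons, hu, hz t (by omega), h1]; simp
        · rw [G_cons, hu, hz t (by omega), h2]; simp

lemma update_VG_child (μ : List Bool → ℝ) (s : List Bool) (a : ℝ) (c : Bool) :
    V (Function.update μ s a) (c :: s) = V μ s + |a| ∧
      G (Function.update μ s a) (c :: s) = G μ s + sg c * a := by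
  have h1 := VG_congr (Function.update μ s a) μ s (fun r hr => by
    rw [Function.update_of_ne]
    rintro rfl
    exact lt_irrefl _ hr)
  constructor
  · rw [V_cons, h1.1, Function.update_self]
  · rw [G_cons, h1.2, Function.update_self]

lemma exists_child (φ : List Bool → ℝ)
    (hφ : ∀ t, φ t = (φ (true :: t) + φ (false :: t)) / 2) (c : ℝ) (t : List Bool) (h : c < φ t) :
    ∃ d : Bool, c < φ (d :: t) := by
  by_contra hcon
  push Not at hcon
  have h1 := hcon true
  have h2 := hcon false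
  have h3 := hφ t
  linarith

lemma exists_deep (φ : List Bool → ℝ)
    (hφ : ∀ t, φ t = (φ (true :: t) + φ (false :: t)) / 2) (c : ℝ) (h : ∃ t, c < φ t) (L : ℕ) :
    ∃ t : List Bool, L ≤ t.length ∧ c < φ t := by
  induction L with
  | zero => obtain ⟨t, ht⟩ := h; exact ⟨t, Nat.zero_le _, ht⟩
  | succ L ih =>
    obtain ⟨t, hL, ht⟩ := ih
    obtain ⟨d, hd⟩ := exists_child φ hφ c t ht
    exact ⟨d :: t, by simp only [List.length_cons]; omega, hd⟩

lemma inner (φ : List Bool → ℝ)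
    (hφ : ∀ t, φ t = (φ (true :: t) + φ (false :: t)) / 2) (c δ K : ℝ) (hδ : 0 < δ) (hδ1 : δ ≤ 1)
    (m : ℕ) : ∀ (μ : List Bool → ℝ) (s : List Bool), c < φ s → 1 ≤ -G μ s + m * δ →
    (∀ r : List Bool, s.length ≤ r.length → μ r = 0) → V μ s + G μ s ≤ K →
    (∀ t, V μ t + G μ t ≤ K + 2 * δ) → (∀ t, -G μ t ≤ 2) →
    ∃ (μ' : List Bool → ℝ) (J : List Bool), s.length ≤ J.length ∧ c < φ J ∧ 1 ≤ -G μ' J ∧
      (∀ r : List Bool, J.length ≤ r.length → μ' r = 0) ∧
      (∀ t, V μ' t + G μ' t ≤ K + 2 * δ) ∧ (∀ t, -G μ' t ≤ 2) ∧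
      (∀ r : List Bool, r.length < s.length → μ' r = μ r) := by
  induction m with
  | zero =>
    intro μ s h1 h2 h3 _ h5 h6
    exact ⟨μ, s, le_rfl, h1, by simpa using h2, h3, h5, h6, fun _ _ => rfl⟩
  | succ m ih =>
    intro μ s h1 h2 h3 h4 h5 h6
    by_cases hW : 1 ≤ -G μ s
    · exact ⟨μ, s, le_rfl, h1, hW, h3, h5, h6, fun _ _ => rfl⟩
    · push Not at hW
      obtain ⟨d, hd⟩ := exists_child φ hφ c s h1
      have hsq : sg d * sg d = 1 := by cases d <;> simp [sg]
      set a : ℝ := -(sg d * δ) with ha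
      have habs : |a| = δ := by rw [ha, abs_neg, abs_mul, abs_sg, one_mul, abs_of_pos hδ]
      have hch := update_VG_child μ s a d
      have hGa : sg d * a = -δ := by rw [ha]; linear_combination (-δ) * hsq
      have hGle : ∀ e : Bool, sg e * a ≤ δ ∧ -δ ≤ sg e * a := by
        intro e
        have : |sg e * a| = δ := by rw [abs_mul, abs_sg, one_mul, habs]
        constructor
        · rw [← this]; exact le_abs_self _
        · rw [← this]; exact neg_abs_le _
      obtain ⟨μ', J, g1, g2, g3, g4, g5, g6, g7⟩ := ih (Function.update μ s a) (d :: s) hd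
        (by
          rw [hch.2, hGa]
          push_cast at h2
          linarith)
        (by
          intro r hr
          simp only [List.length_cons] at hr
          rw [Function.update_of_ne]
          · exact h3 r (by omega)
          · rintro rfl; omega)
        (by
          rw [hch.1, hch.2, hGa, habs]; linarith)
        (by
          intro t
          rcases update_VG μ s a h3 t with h | ⟨_, e, k1, k2⟩
          · rw [h.1, h.2]; exact h5 t
          · rw [k1, k2, habs]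
            have := (hGle e).1
            linarith)
        (by
          intro t
          rcases update_VG μ s a h3 t with h | ⟨_, e, k1, k2⟩
          · rw [h.2]; exact h6 t
          · rw [k2]
            have := (hGle e).2
            linarith)
      refine ⟨μ', J, ?_, g2, g3, g4, g5, g6, ?_⟩
      · simp only [List.length_cons] at g1; omega
      · intro r hr
        rw [g7 r (by simp only [List.length_cons]; omega), Function.update_of_ne]
        rintro rfl
        exact lt_irrefl _ hr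

/-- the invariant of the construction -/
def Inv (n : ℕ) (p : (List Bool → ℝ) × ℕ) : Prop :=
  (∀ r : List Bool, p.2 ≤ r.length → p.1 r = 0) ∧ n ≤ p.2 ∧
  (∀ t, V p.1 t + G p.1 t ≤ 2 * (1 - (1 / 2) ^ n)) ∧ (∀ t, -G p.1 t ≤ 2)

lemma stage (n : ℕ) (φ : List Bool → ℝ)
    (hφ : ∀ t, φ t = (φ (true :: t) + φ (false :: t)) / 2) (c : ℝ) (h : ∃ t, c < φ t)
    (p : (List Bool → ℝ) × ℕ) (hp : Inv n p) :
    ∃ q : (List Bool → ℝ) × ℕ, Inv (n + 1) q ∧ p.2 ≤ q.2 ∧
      (∀ r : List Bool, r.length < p.2 → q.1 r = p.1 r) ∧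
      ∃ J : List Bool, J.length < q.2 ∧ c < φ J ∧ G q.1 J ≤ -1 := by
  obtain ⟨hp1, hp2, hp3, hp4⟩ := hp
  obtain ⟨s, hs, hcs⟩ := exists_deep φ hφ c h p.2
  set δ : ℝ := (1 / 2) ^ (n + 1) with hδdef
  have hδ : 0 < δ := by positivity
  have hδ1 : δ ≤ 1 := by
    rw [hδdef]; exact pow_le_one₀ (by norm_num) (by norm_num)
  have hpow : (1 / 2 : ℝ) ^ n = 2 * δ := by rw [hδdef, pow_succ]; ring
  obtain ⟨m, hm⟩ := exists_nat_ge ((1 + G p.1 s) / δ)
  have hm' : 1 ≤ -G p.1 s + m * δ := by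
    rw [div_le_iff₀ hδ] at hm
    linarith
  obtain ⟨μ', J, g1, g2, g3, g4, g5, g6, g7⟩ := inner φ hφ c δ (2 * (1 - (1 / 2) ^ n)) hδ hδ1 m
    p.1 s hcs hm' (fun r hr => hp1 r (by omega)) (hp3 s)
    (fun t => by have := hp3 t; linarith) hp4
  refine ⟨(μ', J.length + p.2 + 1), ⟨?_, ?_, ?_, ?_⟩, ?_, ?_, J, ?_, g2, ?_⟩
  · intro r hr
    exact g4 r (by simp only at hr; omega)
  · simp only; omega
  · intro t
    have := g5 t
    rw [hpow] at this
    simp only
    rw [← hδdef]
    linarith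
  · exact g6
  · simp only; omega
  · intro r hr
    exact g7 r (by omega)
  · simp only; omega
  · simp only; linarith

theorem comb (φ : ℕ → List Bool → ℝ)
    (hφ : ∀ n t, φ n t = (φ n (true :: t) + φ n (false :: t)) / 2) (c : ℕ → ℝ)
    (h : ∀ n, ∃ t, c n < φ n t) :
    ∃ μ : List Bool → ℝ, (∀ t, V μ t ≤ 4) ∧ ∀ n, ∃ J, c n < φ n J ∧ G μ J ≤ -1 := by
  classical
  let step : ∀ n : ℕ, {p : (List Bool → ℝ) × ℕ // Inv n p} →
      {p : (List Bool → ℝ) × ℕ // Inv (n + 1) p} := fun n p =>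
    ⟨(stage n (φ n) (hφ n) (c n) (h n) p.1 p.2).choose,
      (stage n (φ n) (hφ n) (c n) (h n) p.1 p.2).choose_spec.1⟩
  have hstep : ∀ n (p : {p : (List Bool → ℝ) × ℕ // Inv n p}),
      p.1.2 ≤ (step n p).1.2 ∧
      (∀ r : List Bool, r.length < p.1.2 → (step n p).1.1 r = p.1.1 r) ∧
      ∃ J : List Bool, J.length < (step n p).1.2 ∧ c n < φ n J ∧ G (step n p).1.1 J ≤ -1 :=
    fun n p => (stage n (φ n) (hφ n) (c n) (h n) p.1 p.2).choose_spec.2
  have h0 : Inv 0 ((fun _ => (0 : ℝ)), 0) := by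
    have hV : ∀ t, V (fun _ => (0 : ℝ)) t = 0 := by
      intro t
      induction t with
      | nil => rfl
      | cons d t ih => rw [V_cons, ih]; simp
    have hG : ∀ t, G (fun _ => (0 : ℝ)) t = 0 := by
      intro t
      induction t with
      | nil => rfl
      | cons d t ih => rw [G_cons, ih]; simp
    refine ⟨fun _ _ => rfl, le_rfl, fun t => ?_, fun t => ?_⟩
    · simp only [hV t, hG t]; norm_num
    · simp only [hG t]; norm_num
  let st : ∀ n : ℕ, {p : (List Bool → ℝ) × ℕ // Inv n p} := fun n =>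
    Nat.rec (motive := fun n => {p : (List Bool → ℝ) × ℕ // Inv n p}) ⟨_, h0⟩
      (fun n p => step n p) n
  have hst : ∀ n, st (n + 1) = step n (st n) := fun n => rfl
  -- the levels are monotone
  have hmono : ∀ n k : ℕ, (st n).1.2 ≤ (st (n + k)).1.2 := by
    intro n k
    induction k with
    | zero => exact le_rfl
    | succ k ih =>
      have := (hstep (n + k) (st (n + k))).1
      rw [← hst] at this
      exact le_trans ih this
  have hstab : ∀ n k : ℕ, ∀ r : List Bool, r.length < (st n).1.2 →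
      (st (n + k)).1.1 r = (st n).1.1 r := by
    intro n k r hr
    induction k with
    | zero => rfl
    | succ k ih =>
      have := (hstep (n + k) (st (n + k))).2.1 r (lt_of_lt_of_le hr (hmono n k))
      rw [← hst] at this
      rw [← ih]
      exact this
  have hlev : ∀ n, n ≤ (st n).1.2 := fun n => (st n).2.2.1
  let μ : List Bool → ℝ := fun t => (st (t.length + 1)).1.1 t
  have hμ : ∀ (n : ℕ) (r : List Bool), r.length < (st n).1.2 → μ r = (st n).1.1 r := by
    intro n r hr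
    rcases le_total n (r.length + 1) with hle | hle
    · obtain ⟨k, hk⟩ := Nat.exists_eq_add_of_le hle
      change (st (r.length + 1)).1.1 r = _
      rw [hk]
      exact hstab n k r hr
    · obtain ⟨k, hk⟩ := Nat.exists_eq_add_of_le hle
      change (st (r.length + 1)).1.1 r = _
      rw [hk]
      exact (hstab (r.length + 1) k r (lt_of_lt_of_le (Nat.lt_succ_self _) (hlev _))).symm
  refine ⟨μ, fun t => ?_, fun n => ?_⟩
  · have h1 := VG_congr μ (st t.length).1.1 t (fun r hr =>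
      hμ _ r (lt_of_lt_of_le hr (hlev _)))
    rw [h1.1]
    have h2 := (st t.length).2.2.2.1 t
    have h3 := (st t.length).2.2.2.2 t
    have h4 : (0 : ℝ) < (1 / 2) ^ t.length := by positivity
    linarith
  · obtain ⟨J, j1, j2, j3⟩ := (hstep n (st n)).2.2
    rw [← hst] at j1 j3
    refine ⟨J, j2, ?_⟩
    have h1 := VG_congr μ (st (n + 1)).1.1 J (fun r hr => hμ _ r (lt_trans hr j1))
    rw [h1.2]
    exact j3

section Daugavet

variable {Y : Type*} [NormedAddCommGroup Y] [NormedSpace ℝ Y]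

lemma subslice
    (hD : ∀ (f : Y →L[ℝ] ℝ) (v : Y),
      ‖ContinuousLinearMap.id ℝ Y + f.smulRight v‖ = 1 + ‖f.smulRight v‖)
    (g0 : Y →L[ℝ] ℝ) (c0 : ℝ) (hc0 : 0 ≤ c0)
    (hne : ∃ z, ‖z‖ ≤ 1 ∧ c0 < g0 z) (x0 : Y) (hx0 : x0 ≠ 0) (ε : ℝ) (hε : 0 < ε) :
    ∃ (g1 : Y →L[ℝ] ℝ) (c1 : ℝ), 0 ≤ c1 ∧ (∃ z, ‖z‖ ≤ 1 ∧ c1 < g1 z) ∧
      ∀ u, ‖u‖ ≤ 1 → c1 < g1 u → c0 < g0 u ∧ 1 + ‖x0‖ - ε < ‖u + x0‖ := by
  obtain ⟨z, hz1, hz2⟩ := hne
  have hgz : g0 z ≤ ‖g0‖ := le_trans (le_abs_self _) (g0.unit_le_opNorm z hz1)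
  have hN : 0 < ‖g0‖ := by linarith
  obtain ⟨N, hNdef⟩ : ∃ N, N = ‖g0‖ := ⟨_, rfl⟩
  obtain ⟨a, hadef⟩ : ∃ a, a = ‖x0‖ := ⟨_, rfl⟩
  rw [← hNdef] at hN hgz
  rw [← hadef]
  have ha : 0 < a := by rw [hadef]; exact norm_pos_iff.2 hx0
  obtain ⟨f0, hf0def⟩ : ∃ f0 : Y →L[ℝ] ℝ, f0 = N⁻¹ • g0 := ⟨_, rfl⟩
  have hf0 : ‖f0‖ = 1 := by
    rw [hf0def, norm_smul, norm_inv, Real.norm_eq_abs, abs_of_pos hN, ← hNdef,
      inv_mul_cancel₀ hN.ne']
  have hf0g : ∀ u, g0 u = N * f0 u := by
    intro u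
    rw [hf0def]
    simp only [ContinuousLinearMap.smul_apply, smul_eq_mul]
    field_simp
  have hκ : 0 < 1 - c0 / N := by
    rw [sub_pos, div_lt_one hN]; linarith
  have hκ1 : 0 ≤ c0 / N := div_nonneg hc0 hN.le
  obtain ⟨δ, h1, h2, h3, h4⟩ : ∃ δ : ℝ, 0 < δ ∧ δ ≤ ε ∧ δ < a ∧ δ ≤ a * (1 - c0 / N) := by
    refine ⟨min (min ε (a / 2)) (a * (1 - c0 / N)), ?_, ?_, ?_, ?_⟩
    · have : 0 < a * (1 - c0 / N) := mul_pos ha hκ
      exact lt_min (lt_min hε (by linarith)) this
    · exact le_trans (min_le_left _ _) (min_le_left _ _)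
    · refine lt_of_le_of_lt (le_trans (min_le_left _ _) (min_le_right _ _)) (by linarith)
    · exact min_le_right _ _
  have hT : ‖f0.smulRight x0‖ = a := by
    rw [ContinuousLinearMap.norm_smulRight_apply, hf0, one_mul, hadef]
  obtain ⟨y, hy1, hy2⟩ :=
    (ContinuousLinearMap.id ℝ Y + f0.smulRight x0).exists_lt_apply_of_lt_opNorm
      (r := 1 + a - δ) (by rw [hD, hT]; linarith)
  have hy3 : 1 + a - δ < ‖y + f0 y • x0‖ := by simpa using hy2
  obtain ⟨f, hf1, hf2⟩ := exists_dual_vector'' ℝ (y + f0 y • x0)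
  have hf3 : 1 + a - δ < f y + f0 y * f x0 := by
    have : f (y + f0 y • x0) = f y + f0 y * f x0 := by simp
    rw [← this, hf2]
    exact hy3
  obtain ⟨y', f', hy', hf', hpos, hmain⟩ : ∃ (y' : Y) (f' : Y →L[ℝ] ℝ), ‖y'‖ ≤ 1 ∧ ‖f'‖ ≤ 1 ∧
      0 ≤ f0 y' ∧ 1 + a - δ < f' y' + f0 y' * f' x0 := by
    rcases le_total 0 (f0 y) with h | h
    · exact ⟨y, f, hy1.le, hf1, h, hf3⟩
    · refine ⟨-y, -f, by rw [norm_neg]; exact hy1.le, by rw [norm_neg]; exact hf1, ?_, ?_⟩
      · rw [map_neg]; linarith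
      · simp only [ContinuousLinearMap.neg_apply, map_neg]
        linarith
  have hle : ∀ (k : Y →L[ℝ] ℝ), ‖k‖ ≤ 1 → ∀ u, ‖u‖ ≤ 1 → k u ≤ 1 := by
    intro k hk u hu
    exact le_trans (le_trans (le_abs_self _) (k.unit_le_opNorm u hu)) hk
  obtain ⟨p, hp⟩ : ∃ p, p = f' x0 := ⟨_, rfl⟩
  rw [← hp] at hmain
  have hpa : p ≤ a := by
    rw [hp, hadef]
    calc f' x0 ≤ ‖f' x0‖ := le_abs_self _
      _ ≤ ‖f'‖ * ‖x0‖ := f'.le_opNorm _
      _ ≤ 1 * ‖x0‖ := by gcongr
      _ = ‖x0‖ := one_mul _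
  have hy'1 := hle f' hf' y' hy'
  have hy'2 := hle f0 hf0.le y' hy'
  have hp0 : 0 < p := by
    by_contra hcon
    push Not at hcon
    have : f0 y' * p ≤ 0 := mul_nonpos_of_nonneg_of_nonpos hpos hcon
    linarith
  refine ⟨f' + p • f0, 1 + a - δ, by linarith, ⟨y', hy', ?_⟩, ?_⟩
  · simp only [ContinuousLinearMap.add_apply, ContinuousLinearMap.smul_apply, smul_eq_mul]
    linarith
  · intro u hu hcu
    simp only [ContinuousLinearMap.add_apply, ContinuousLinearMap.smul_apply, smul_eq_mul] at hcu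
    have hu1 := hle f' hf' u hu
    have hu2 := hle f0 hf0.le u hu
    constructor
    · have h5 : c0 / N < f0 u := by
        by_contra hcon
        push Not at hcon
        have h6 : p * f0 u ≤ p * (c0 / N) := mul_le_mul_of_nonneg_left hcon hp0.le
        have h7 : p * (c0 / N) ≤ a * (c0 / N) := mul_le_mul_of_nonneg_right hpa hκ1
        have h8 : a * (1 - c0 / N) = a - a * (c0 / N) := by ring
        linarith
      rw [hf0g]
      rw [div_lt_iff₀ hN] at h5
      linarith
    · have h5 : f' (u + x0) ≤ ‖u + x0‖ := by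
        calc f' (u + x0) ≤ ‖f' (u + x0)‖ := le_abs_self _
          _ ≤ ‖f'‖ * ‖u + x0‖ := f'.le_opNorm _
          _ ≤ 1 * ‖u + x0‖ := by gcongr
          _ = ‖u + x0‖ := one_mul _
      rw [map_add, ← hp] at h5
      have h6 : p * f0 u ≤ p * 1 := mul_le_mul_of_nonneg_left hu2 hp0.le
      linarith

lemma subslice_finset
    (hD : ∀ (f : Y →L[ℝ] ℝ) (v : Y),
      ‖ContinuousLinearMap.id ℝ Y + f.smulRight v‖ = 1 + ‖f.smulRight v‖)
    (g0 : Y →L[ℝ] ℝ) (c0 : ℝ) (hc0 : 0 ≤ c0)
    (hne : ∃ z, ‖z‖ ≤ 1 ∧ c0 < g0 z) (ε : ℝ) (hε : 0 < ε) (N : Finset Y) :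
    ∃ (g1 : Y →L[ℝ] ℝ) (c1 : ℝ), 0 ≤ c1 ∧ (∃ z, ‖z‖ ≤ 1 ∧ c1 < g1 z) ∧
      ∀ u, ‖u‖ ≤ 1 → c1 < g1 u → c0 < g0 u ∧
        ∀ v ∈ N, v ≠ 0 → 1 + ‖v‖ - ε < ‖u - v‖ := by
  classical
  induction N using Finset.induction_on with
  | empty => exact ⟨g0, c0, hc0, hne, fun u _ h => ⟨h, by simp⟩⟩
  | insert w N _ ih =>
    obtain ⟨g1, c1, h1, h2, h3⟩ := ih
    by_cases hw : w = 0
    · refine ⟨g1, c1, h1, h2, fun u hu hcu => ⟨(h3 u hu hcu).1, ?_⟩⟩
      intro v hv hv0
      rcases Finset.mem_insert.1 hv with rfl | hv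
      · exact absurd hw hv0
      · exact (h3 u hu hcu).2 v hv hv0
    · obtain ⟨g2, c2, k1, k2, k3⟩ := subslice hD g1 c1 h1 h2 (-w) (neg_ne_zero.2 hw) ε hε
      refine ⟨g2, c2, k1, k2, fun u hu hcu => ?_⟩
      obtain ⟨l1, l2⟩ := k3 u hu hcu
      refine ⟨(h3 u hu l1).1, ?_⟩
      intro v hv hv0
      rcases Finset.mem_insert.1 hv with rfl | hv
      · rw [norm_neg, ← sub_eq_add_neg] at l2
        exact l2
      · exact (h3 u hu l1).2 v hv hv0

theorem no_daugavet {ι : Type*} (g : ι → Y →L[ℝ] ℝ) (v : ι → Y) (C : ℝ)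
    (hb : ∀ (F : Finset ι) (y : Y), ‖∑ t ∈ F, g t y • v t‖ ≤ C * ‖y‖)
    (ht : ∀ y : Y, Filter.Tendsto (fun F : Finset ι => ∑ t ∈ F, g t y • v t)
      Filter.atTop (𝓝 y)) (hnt : ∃ y : Y, y ≠ 0)
    (hD : ∀ (f : Y →L[ℝ] ℝ) (v : Y),
      ‖ContinuousLinearMap.id ℝ Y + f.smulRight v‖ = 1 + ‖f.smulRight v‖) : False := by
  classical
  obtain ⟨y0, hy0⟩ := hnt
  have hy0' : 0 < ‖y0‖ := norm_pos_iff.2 hy0
  have hC : 0 ≤ C := by
    have := hb ∅ y0
    rw [Finset.sum_empty, norm_zero] at this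
    by_contra hcon
    push Not at hcon
    have h2 := mul_neg_of_neg_of_pos hcon hy0'
    linarith
  let Q : Finset ι → Y →L[ℝ] Y := fun F => ∑ t ∈ F, (g t).smulRight (v t)
  have hQ : ∀ F y, Q F y = ∑ t ∈ F, g t y • v t := by
    intro F y
    simp [Q]
  have hQn : ∀ F, ‖Q F‖ ≤ C := fun F =>
    ContinuousLinearMap.opNorm_le_bound _ hC (fun y => by rw [hQ]; exact hb F y)
  have hbdd : BddAbove (Set.range fun F => ‖Q F‖) := ⟨C, by rintro _ ⟨F, rfl⟩; exact hQn F⟩
  obtain ⟨α, hαdef⟩ : ∃ α, α = ⨆ F, ‖Q F‖ := ⟨_, rfl⟩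
  have hα : ∀ F, ‖Q F‖ ≤ α := fun F => by rw [hαdef]; exact le_ciSup hbdd F
  have hα' : ∀ F y, ‖Q F y‖ ≤ α * ‖y‖ := fun F y => (Q F).le_of_opNorm_le (hα F) y
  have hcompl : ∀ F y, ‖y - Q F y‖ ≤ α * ‖y‖ := by
    intro F y
    have h1 : Filter.Tendsto (fun G : Finset ι => ‖(∑ t ∈ G, g t y • v t) - Q F y‖)
        Filter.atTop (𝓝 ‖y - Q F y‖) := ((ht y).sub_const _).norm
    refine le_of_tendsto h1 (Filter.eventually_atTop.2 ⟨F, fun G hG => ?_⟩)
    have h2 : (∑ t ∈ G, g t y • v t) - Q F y = Q (G \ F) y := by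
      rw [hQ, hQ, ← Finset.sum_sdiff hG]
      abel
    rw [h2]
    exact hα' _ _
  have hα1 : 1 ≤ α := by
    have h1 : ‖y0‖ ≤ α * ‖y0‖ := by
      refine le_of_tendsto (ht y0).norm (Filter.Eventually.of_forall fun G => ?_)
      rw [← hQ]
      exact hα' _ _
    by_contra hcon
    push Not at hcon
    have h2 := mul_lt_mul_of_pos_right hcon hy0'
    linarith
  obtain ⟨F, hF⟩ : ∃ F, α - 1 / 4 < ‖Q F‖ :=
    exists_lt_of_lt_ciSup (by rw [← hαdef]; linarith)
  obtain ⟨z, hz1, hz2⟩ := (Q F).exists_lt_apply_of_lt_opNorm hF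
  obtain ⟨f, hf1, hf2⟩ := exists_dual_vector'' ℝ (Q F z)
  have hf2' : f (Q F z) = ‖Q F z‖ := by simpa using hf2
  -- the compact set containing the image of the ball
  have hK : IsCompact ((fun a : ι → ℝ => ∑ t ∈ F, a t • v t) ''
      (Set.pi Set.univ fun t => Set.Icc (-‖g t‖) ‖g t‖)) := by
    refine (isCompact_univ_pi fun t => isCompact_Icc).image ?_
    refine continuous_finsetSum _ fun t _ => ?_
    exact (continuous_apply t).smul continuous_const
  obtain ⟨N, hNfin, hN⟩ := Metric.totallyBounded_iff.1 hK.totallyBounded (1 / 8) (by norm_num)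
  obtain ⟨g1, c1, h1, ⟨u, hu1, hu2⟩, h3⟩ := subslice_finset hD (f.comp (Q F)) (α - 1 / 4)
    (by linarith) ⟨z, hz1.le, by
      rw [ContinuousLinearMap.comp_apply, hf2']; exact hz2⟩ (1 / 4) (by norm_num) hNfin.toFinset
  obtain ⟨h4, h5⟩ := h3 u hu1 hu2
  have hmem : Q F u ∈ ((fun a : ι → ℝ => ∑ t ∈ F, a t • v t) ''
      (Set.pi Set.univ fun t => Set.Icc (-‖g t‖) ‖g t‖)) := by
    refine ⟨fun t => g t u, ?_, (hQ F u).symm⟩
    intro t _
    have := (g t).unit_le_opNorm u hu1
    rw [Real.norm_eq_abs] at this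
    exact abs_le.1 this
  have hmem2 := hN hmem
  simp only [Set.mem_iUnion, exists_prop, Metric.mem_ball] at hmem2
  obtain ⟨v0, hv0, hd⟩ := hmem2
  rw [dist_eq_norm] at hd
  have hw : α - 1 / 4 < ‖Q F u‖ := by
    rw [ContinuousLinearMap.comp_apply] at h4
    calc α - 1 / 4 < f (Q F u) := h4
      _ ≤ ‖f (Q F u)‖ := le_abs_self _
      _ ≤ ‖f‖ * ‖Q F u‖ := f.le_opNorm _
      _ ≤ 1 * ‖Q F u‖ := by gcongr
      _ = ‖Q F u‖ := one_mul _
  have hv1 : ‖Q F u‖ ≤ ‖v0‖ + ‖Q F u - v0‖ := by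
    have := norm_add_le v0 (Q F u - v0)
    rwa [add_sub_cancel] at this
  have hv00 : v0 ≠ 0 := by
    rintro rfl
    rw [norm_zero] at hv1
    linarith
  have h6 := h5 v0 (by simpa using hv0) hv00
  have h7 : ‖u - v0‖ ≤ ‖u - Q F u‖ + ‖Q F u - v0‖ := by
    have := norm_add_le (u - Q F u) (Q F u - v0)
    rwa [sub_add_sub_cancel] at this
  have h8 := hcompl F u
  have h9 : α * ‖u‖ ≤ α * 1 := mul_le_mul_of_nonneg_left hu1 (by linarith)
  linarith

end Daugavet

section Space

open BoundedContinuousFunction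

/-- coefficient families whose variation along every branch is at most one -/
def BT : Type := {μ : List Bool → ℝ // ∀ t, V μ t ≤ 1}

instance : TopologicalSpace BT := ⊥
instance : DiscreteTopology BT := ⟨rfl⟩

/-- the ambient space of bounded functions on `BT` -/
abbrev E : Type := BoundedContinuousFunction BT ℝ

lemma V_mono (μ ν : List Bool → ℝ) (h : ∀ r, |μ r| ≤ |ν r|) (t : List Bool) : V μ t ≤ V ν t := by
  induction t with
  | nil => exact le_rfl
  | cons c t ih => rw [V_cons, V_cons]; exact add_le_add ih (h t)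

lemma BT_abs_le (μ : BT) (t : List Bool) : |μ.1 t| ≤ 1 := by
  have h := μ.2 (true :: t)
  rw [V_cons] at h
  have := V_nonneg μ.1 t
  linarith

/-- the coordinate function at a node -/
noncomputable def ee (t : List Bool) : E :=
  ofNormedAddCommGroupDiscrete (fun μ : BT => μ.1 t) 1 (fun μ => by
    rw [Real.norm_eq_abs]; exact BT_abs_le μ t)

lemma ee_apply (t : List Bool) (μ : BT) : ee t μ = μ.1 t := rfl

/-- truncation to a finite set of nodes -/
def trunc (F : Finset (List Bool)) (μ : BT) : BT :=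
  ⟨fun t => if t ∈ F then μ.1 t else 0, fun t => by
    refine le_trans (V_mono _ μ.1 (fun r => ?_) t) (μ.2 t)
    split_ifs
    · exact le_rfl
    · rw [abs_zero]; exact abs_nonneg _⟩

lemma V_zero (t : List Bool) : V (fun _ => (0 : ℝ)) t = 0 := by
  induction t with
  | nil => rfl
  | cons d t ih => rw [V_cons, ih]; simp

/-- the point mass at a node -/
def pt (t : List Bool) : BT :=
  ⟨Function.update (fun _ => (0 : ℝ)) t 1, fun s => by
    rcases update_VG (fun _ => (0 : ℝ)) t 1 (fun _ _ => rfl) s with h | ⟨_, c, h, _⟩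
    · rw [h.1, V_zero]; norm_num
    · rw [h, V_zero]; norm_num⟩

lemma pt_apply (t s : List Bool) : (pt t).1 s = if s = t then 1 else 0 := by
  change Function.update (fun _ => (0 : ℝ)) t 1 s = _
  rw [Function.update_apply]

/-- the stopping time space -/
noncomputable def XS : Submodule ℝ E := (Submodule.span ℝ (Set.range ee)).topologicalClosure

lemma span_le_XS : Submodule.span ℝ (Set.range ee) ≤ XS := Submodule.le_topologicalClosure _

lemma ee_mem (t : List Bool) : ee t ∈ XS := span_le_XS (Submodule.subset_span ⟨t, rfl⟩)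

instance : CompleteSpace XS := by
  unfold XS
  infer_instance

instance : TopologicalSpace.SeparableSpace XS := by
  have h : TopologicalSpace.IsSeparable (XS : Set E) := by
    unfold XS
    rw [Submodule.topologicalClosure_coe]
    exact ((Set.countable_range ee).isSeparable.span (R := ℝ)).closure
  exact h.separableSpace

/-- the coordinate projection onto a finite set of nodes -/
noncomputable def PE (F : Finset (List Bool)) : E →L[ℝ] E :=
  ∑ t ∈ F, (evalCLM ℝ (pt t)).smulRight (ee t)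

lemma PE_apply (F : Finset (List Bool)) (x : E) : PE F x = ∑ t ∈ F, x (pt t) • ee t := by
  simp [PE]

lemma PE_ee (F : Finset (List Bool)) (s : List Bool) : PE F (ee s) = if s ∈ F then ee s else 0 := by
  rw [PE_apply]
  have : ∀ t ∈ F, (ee s) (pt t) • ee t = if s = t then ee t else 0 := by
    intro t _
    rw [ee_apply, pt_apply]
    split_ifs <;> simp
  rw [Finset.sum_congr rfl this, Finset.sum_ite_eq]

lemma key (F : Finset (List Bool)) (μ : BT) (x : E) (hx : x ∈ XS) :
    (PE F x) μ = x (trunc F μ) := by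
  have h : XS ≤ LinearMap.ker
      (((evalCLM ℝ μ).comp (PE F) - evalCLM ℝ (trunc F μ) : E →L[ℝ] ℝ) : E →ₗ[ℝ] ℝ) := by
    refine Submodule.topologicalClosure_minimal _ ?_ ?_
    · rw [Submodule.span_le]
      rintro _ ⟨s, rfl⟩
      rw [SetLike.mem_coe, LinearMap.mem_ker]
      change (PE F (ee s)) μ - (ee s) (trunc F μ) = 0
      rw [PE_ee, ee_apply]
      change _ - (if s ∈ F then μ.1 s else 0) = 0
      split_ifs
      · rw [ee_apply]; ring
      · simp
    · exact ContinuousLinearMap.isClosed_ker _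
  have h2 := h hx
  rw [LinearMap.mem_ker] at h2
  change (PE F x) μ - x (trunc F μ) = 0 at h2
  linarith

lemma PE_norm (F : Finset (List Bool)) (x : E) (hx : x ∈ XS) : ‖PE F x‖ ≤ ‖x‖ := by
  rw [BoundedContinuousFunction.norm_le (norm_nonneg _)]
  intro μ
  rw [key F μ x hx]
  exact x.norm_coe_le_norm _

lemma PE_eventually (y : E) (hy : y ∈ Submodule.span ℝ (Set.range ee)) :
    ∀ᶠ F in (Filter.atTop : Filter (Finset (List Bool))), PE F y = y := by
  induction hy using Submodule.span_induction with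
  | mem y hy =>
    obtain ⟨s, rfl⟩ := hy
    filter_upwards [Filter.eventually_ge_atTop {s}] with F hF
    rw [PE_ee, if_pos (hF (Finset.mem_singleton_self s))]
  | zero => exact Filter.Eventually.of_forall fun F => map_zero _
  | add y z _ _ h1 h2 =>
    filter_upwards [h1, h2] with F k1 k2
    rw [map_add, k1, k2]
  | smul a y _ h =>
    filter_upwards [h] with F k
    rw [map_smul, k]

lemma PE_tendsto (x : E) (hx : x ∈ XS) :
    Filter.Tendsto (fun F : Finset (List Bool) => PE F x) Filter.atTop (𝓝 x) := by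
  rw [Metric.tendsto_nhds]
  intro ε hε
  have hx' : x ∈ closure (Submodule.span ℝ (Set.range ee) : Set E) := by
    have := hx
    unfold XS at this
    rwa [← SetLike.mem_coe, Submodule.topologicalClosure_coe] at this
  obtain ⟨y, hy, hxy⟩ := Metric.mem_closure_iff.1 hx' (ε / 2) (by linarith)
  filter_upwards [PE_eventually y hy] with F hF
  rw [dist_eq_norm] at hxy ⊢
  have h1 : PE F x - x = PE F (x - y) - (x - y) := by
    rw [map_sub, hF]; abel
  rw [h1]
  calc ‖PE F (x - y) - (x - y)‖ ≤ ‖PE F (x - y)‖ + ‖x - y‖ := norm_sub_le _ _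
    _ ≤ ‖x - y‖ + ‖x - y‖ := by
      gcongr
      exact PE_norm F _ (XS.sub_mem hx (span_le_XS hy))
    _ < ε := by linarith

/-- the tree in the space -/
noncomputable def bb : List Bool → E
  | [] => 0
  | c :: t => bb t + sg c • ee t

lemma bb_apply (t : List Bool) (μ : BT) : bb t μ = G μ.1 t := by
  induction t with
  | nil => rfl
  | cons c t ih =>
    change (bb t + sg c • ee t) μ = _
    rw [G_cons, ← ih]
    rfl

lemma bb_mem (t : List Bool) : bb t ∈ XS := by
  induction t with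
  | nil => exact XS.zero_mem
  | cons c t ih => exact XS.add_mem ih (XS.smul_mem _ (ee_mem t))

lemma bb_norm (t : List Bool) : ‖bb t‖ ≤ 1 := by
  rw [BoundedContinuousFunction.norm_le (by norm_num)]
  intro μ
  rw [bb_apply, Real.norm_eq_abs]
  exact le_trans (abs_G_le_V _ _) (μ.2 t)

/-- the stopping time space, as a type -/
def XT : Type := ↥XS

noncomputable instance : NormedAddCommGroup XT := inferInstanceAs (NormedAddCommGroup ↥XS)
noncomputable instance : NormedSpace ℝ XT := inferInstanceAs (NormedSpace ℝ ↥XS)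
instance : CompleteSpace XT := inferInstanceAs (CompleteSpace ↥XS)
instance : TopologicalSpace.SeparableSpace XT :=
  inferInstanceAs (TopologicalSpace.SeparableSpace ↥XS)

/-- the inclusion of the stopping time space -/
noncomputable def toE : XT →L[ℝ] E :=
  LinearMap.mkContinuous (⟨⟨fun x => x.1, fun _ _ => rfl⟩, fun _ _ => rfl⟩ : XT →ₗ[ℝ] E) 1
    (fun x => by rw [one_mul]; exact le_rfl)

lemma toE_norm (x : XT) : ‖x‖ = ‖toE x‖ := rfl

lemma toE_mem (x : XT) : toE x ∈ XS := x.2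

lemma toE_inj (x y : XT) (h : toE x = toE y) : x = y := Subtype.ext h

/-- an element of the closed span, as an element of the stopping time space -/
def mkX (x : E) (hx : x ∈ XS) : XT := ⟨x, hx⟩

lemma toE_mkX (x : E) (hx : x ∈ XS) : toE (mkX x hx) = x := rfl

/-- the tree, as a family of elements of the stopping time space -/
noncomputable def bX (t : List Bool) : XT := mkX (bb t) (bb_mem t)

lemma toE_bX (t : List Bool) : toE (bX t) = bb t := rfl

lemma bX_avg (t : List Bool) : bX (true :: t) + bX (false :: t) = (2 : ℝ) • bX t := by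
  apply toE_inj
  rw [map_add, map_smul, toE_bX, toE_bX, toE_bX]
  ext μ
  change bb (true :: t) μ + bb (false :: t) μ = 2 * bb t μ
  rw [bb_apply, bb_apply, bb_apply, G_cons, G_cons, sg_true, sg_false]
  ring

lemma V_smul (a : ℝ) (ha : 0 ≤ a) (μ : List Bool → ℝ) (t : List Bool) :
    V (fun r => a * μ r) t = a * V μ t := by
  induction t with
  | nil => simp [V_nil]
  | cons c t ih => rw [V_cons, V_cons, ih, abs_mul, abs_of_nonneg ha]; ring

lemma G_smul (a : ℝ) (μ : List Bool → ℝ) (t : List Bool) :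
    G (fun r => a * μ r) t = a * G μ t := by
  induction t with
  | nil => simp [G_nil]
  | cons c t ih => rw [G_cons, G_cons, ih]; ring

/-- evaluation at a point of `BT` -/
noncomputable def evX (μ : BT) : XT →L[ℝ] ℝ := (evalCLM ℝ μ).comp toE

lemma evX_apply (μ : BT) (x : XT) : evX μ x = toE x μ := rfl

theorem not_scd : ¬ ∀ A : Set XT, A.Nonempty → Convex ℝ A → Bornology.IsBounded A →
    ∃ (f : ℕ → (XT →L[ℝ] ℝ)) (c : ℕ → ℝ),
      (∀ n, ∃ x ∈ A, c n < f n x) ∧
      ∀ y : ℕ → XT, (∀ n, y n ∈ A ∧ c n < f n (y n)) →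
        A ⊆ closure (convexHull ℝ (Set.range y)) := by
  intro hall
  obtain ⟨f, c, h1, h2⟩ := hall (convexHull ℝ (Set.range bX))
    ⟨bX [], subset_convexHull ℝ _ ⟨[], rfl⟩⟩ (convex_convexHull ℝ _) (by
      rw [isBounded_convexHull, isBounded_iff_forall_norm_le]
      refine ⟨1, ?_⟩
      rintro _ ⟨t, rfl⟩
      rw [toE_norm, toE_bX]
      exact bb_norm t)
  obtain ⟨μ, hμV, hμ⟩ := comb (fun n t => f n (bX t))
    (fun n t => by
      have := congrArg (f n) (bX_avg t)
      rw [map_add, map_smul, smul_eq_mul] at this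
      linarith) c
    (fun n => by
      by_contra hcon
      push Not at hcon
      obtain ⟨x, hx, hcx⟩ := h1 n
      have hsub : convexHull ℝ (Set.range bX) ⊆ {x | f n x ≤ c n} := by
        refine convexHull_min ?_ (convex_halfSpace_le (f n).isLinear _)
        rintro _ ⟨t, rfl⟩
        exact hcon t
      have := hsub hx
      simp only [Set.mem_setOf_eq] at this
      linarith)
  choose J hJ1 hJ2 using hμ
  let ν : BT := ⟨fun r => (1 / 4) * μ r, fun t => by
    rw [V_smul _ (by norm_num)]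
    have := hμV t
    linarith⟩
  have h3 := h2 (fun n => bX (J n)) (fun n => ⟨subset_convexHull ℝ _ ⟨J n, rfl⟩, hJ1 n⟩)
    (subset_convexHull ℝ (Set.range bX) ⟨[], rfl⟩)
  have hev : ∀ t, evX ν (bX t) = (1 / 4) * G μ t := by
    intro t
    rw [evX_apply, toE_bX, bb_apply]
    exact G_smul _ _ _
  have h4 : closure (convexHull ℝ (Set.range fun n => bX (J n))) ⊆
      {x | evX ν x ≤ -(1 / 4)} := by
    refine closure_minimal ?_ (isClosed_le (evX ν).continuous continuous_const)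
    refine convexHull_min ?_ (convex_halfSpace_le (evX ν).isLinear _)
    rintro _ ⟨n, rfl⟩
    rw [Set.mem_setOf_eq, hev]
    have := hJ2 n
    linarith
  have h5 := h4 h3
  rw [Set.mem_setOf_eq, hev, G_nil] at h5
  norm_num at h5

/-- the coordinate vectors, in the stopping time space -/
noncomputable def eX (t : List Bool) : XT := mkX (ee t) (ee_mem t)

lemma toE_eX (t : List Bool) : toE (eX t) = ee t := rfl

lemma toE_sum (F : Finset (List Bool)) (x : XT) :
    toE (∑ t ∈ F, evX (pt t) x • eX t) = PE F (toE x) := by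
  rw [PE_apply, map_sum]
  refine Finset.sum_congr rfl fun t _ => ?_
  rw [map_smul, toE_eX, evX_apply]

theorem no_renorming (Y : Type) [NormedAddCommGroup Y] [NormedSpace ℝ Y] (Φ : XT ≃L[ℝ] Y)
    (hD : ∀ (f : Y →L[ℝ] ℝ) (v : Y),
      ‖ContinuousLinearMap.id ℝ Y + f.smulRight v‖ = 1 + ‖f.smulRight v‖) : False := by
  have hsum : ∀ (F : Finset (List Bool)) (y : Y),
      ∑ t ∈ F, ((evX (pt t)).comp (Φ.symm : Y →L[ℝ] XT)) y • Φ (eX t) =
      Φ (∑ t ∈ F, evX (pt t) (Φ.symm y) • eX t) := by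
    intro F y
    rw [map_sum]
    refine Finset.sum_congr rfl fun t _ => ?_
    rw [map_smul]
    rfl
  refine no_daugavet (Y := Y) (fun t => (evX (pt t)).comp (Φ.symm : Y →L[ℝ] XT))
    (fun t => Φ (eX t))
    (‖(Φ : XT →L[ℝ] Y)‖ * ‖(Φ.symm : Y →L[ℝ] XT)‖) ?_ ?_ ?_ hD
  · intro F y
    rw [hsum]
    have h1 : ‖∑ t ∈ F, evX (pt t) (Φ.symm y) • eX t‖ ≤ ‖Φ.symm y‖ := by
      rw [toE_norm, toE_sum, toE_norm]
      exact PE_norm F _ (toE_mem _)
    have h2 : ‖Φ (∑ t ∈ F, evX (pt t) (Φ.symm y) • eX t)‖ ≤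
        ‖(Φ : XT →L[ℝ] Y)‖ * ‖∑ t ∈ F, evX (pt t) (Φ.symm y) • eX t‖ :=
      (Φ : XT →L[ℝ] Y).le_opNorm _
    have h3 : ‖Φ.symm y‖ ≤ ‖(Φ.symm : Y →L[ℝ] XT)‖ * ‖y‖ := (Φ.symm : Y →L[ℝ] XT).le_opNorm y
    have h4 : 0 ≤ ‖(Φ : XT →L[ℝ] Y)‖ := norm_nonneg _
    calc ‖Φ (∑ t ∈ F, evX (pt t) (Φ.symm y) • eX t)‖
        ≤ ‖(Φ : XT →L[ℝ] Y)‖ * ‖∑ t ∈ F, evX (pt t) (Φ.symm y) • eX t‖ := h2
      _ ≤ ‖(Φ : XT →L[ℝ] Y)‖ * (‖(Φ.symm : Y →L[ℝ] XT)‖ * ‖y‖) :=
          mul_le_mul_of_nonneg_left (le_trans h1 h3) h4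
      _ = _ := by ring
  · intro y
    have h1 : Filter.Tendsto (fun F : Finset (List Bool) =>
        ∑ t ∈ F, evX (pt t) (Φ.symm y) • eX t) Filter.atTop (𝓝 (Φ.symm y)) := by
      rw [tendsto_iff_norm_sub_tendsto_zero]
      have h0 := tendsto_iff_norm_sub_tendsto_zero.1 (PE_tendsto _ (toE_mem (Φ.symm y)))
      refine h0.congr fun F => ?_
      rw [toE_norm, map_sub, toE_sum]
    have h2 := (Φ.continuous.tendsto _).comp h1
    rw [Φ.apply_symm_apply] at h2
    refine h2.congr fun F => ?_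
    exact (hsum F y).symm
  · refine ⟨Φ (eX []), ?_⟩
    intro h0
    have h1 : eX [] = 0 := by
      apply Φ.injective
      rw [h0, map_zero]
    have h2 : evX (pt []) (eX []) = 0 := by rw [h1, map_zero]
    rw [evX_apply, toE_eX, ee_apply, pt_apply] at h2
    norm_num at h2

end Space

/-- The negation of the preceding statement: Every separable real Banach space that is not SCD (some nonempty bounded convex set has no sequence of slices whose every selection has closed convex hull containing it) is isomorphic to a space where ‖Id+T‖=1+‖T‖ for all rank-one T. -/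
theorem not_every_nonSCD_daugavet :
    ¬ (∀ (X : Type) [NormedAddCommGroup X] [NormedSpace ℝ X] [CompleteSpace X]
      [TopologicalSpace.SeparableSpace X],
      (¬ ∀ A : Set X, A.Nonempty → Convex ℝ A → Bornology.IsBounded A →
          ∃ (f : ℕ → (X →L[ℝ] ℝ)) (c : ℕ → ℝ),
            (∀ n, ∃ x ∈ A, c n < f n x) ∧
            ∀ y : ℕ → X, (∀ n, y n ∈ A ∧ c n < f n (y n)) →
              A ⊆ closure (convexHull ℝ (Set.range y))) →
      ∃ (Y : Type) (_ : NormedAddCommGroup Y) (_ : NormedSpace ℝ Y),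
        Nonempty (X ≃L[ℝ] Y) ∧
        ∀ (f : Y →L[ℝ] ℝ) (v : Y),
          ‖ContinuousLinearMap.id ℝ Y + f.smulRight v‖ = 1 + ‖f.smulRight v‖) := by
  intro h
  obtain ⟨Y, hY1, hY2, ⟨Φ⟩, hD⟩ := h XT not_scd
  exact no_renorming Y Φ hD

end Pool.Agent.Helper412SCD
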